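import Pool.Agent.Work.MP_0890ba_co.BD.Glue
import Pool.Agent.Work.MP_0890ba_co.BD.Five
import Pool.Agent.Work.MP_0890ba_co.BD.Chsf

/-!
# Planar graphs glued from pieces of bounded order along at most two vertices, among them all planar
graphs without long paths, have strong fractional choice number less than five, uniformly
-/

namespace Pool.Agent.Results.MP_0890ba_co.GluedPieces

open Pool.Agent.Work.MP_0890ba_co

/-- The vertices of earlier pieces which are adjacent to the piece `i`. -/
def attach {V : Type} (G : SimpleGraph V) (piece : V → ℕ) (i : ℕ) : Set V :=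
  {u | piece u < i ∧ ∃ v, piece v = i ∧ G.Adj u v}

/-- `G` is glued from pieces of at most `n` vertices: the vertices are put in pieces
`0, 1, 2, ...` of at most `n` vertices each, such that at most two vertices of earlier pieces are
adjacent to a given piece, and if they are two, then they are joined by a walk through earlier
pieces. -/
def Glued {V : Type} (n : ℕ) (G : SimpleGraph V) : Prop :=
  ∃ piece : V → ℕ, ∀ i, {v | piece v = i}.ncard ≤ n ∧ (attach G piece i).ncard ≤ 2 ∧
    ∀ u ∈ attach G piece i, ∀ v ∈ attach G piece i,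
      ∃ p : G.Walk u v, ∀ w ∈ p.support, piece w < i

/-- Planar graphs in which all paths have at most `m` vertices are glued from pieces of at most
`BDP.Hub.clb m` vertices. -/
theorem glued_of_path {V : Type} [Finite V] {G : SimpleGraph V} (hG : Planar G) {m : ℕ}
    (hm : ∀ (u v : V) (p : G.Walk u v), p.IsPath → p.length + 1 ≤ m) :
    Glued (BDP.Hub.clb m) G := by
  obtain ⟨piece, h⟩ := BDP.Hub.exists_piece (BDP.not_hasK3Minor G hG)
    (fun u v p hp => Nat.lt_of_succ_le (hm u v p hp))
  exact ⟨piece, fun i => ⟨(h i).1, (h i).2.1, fun u hu v hv =>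
    BDP.Hub.walk_of_res (W := {w | piece w < i}) hu.1 ((h i).2.2 u hu v hv)⟩⟩

/-- For all `n` there are `b₀`, `γ < 5` and `c > 0` such that every finite planar `4`-colourable
graph which is glued from pieces of at most `n` vertices is `(a, b)`-choosable for `b ≥ b₀` and
`a ≥ γ b`, and has strong fractional choice number at most `5 - c`. -/
theorem result (n : ℕ) :
    ∃ (b₀ : ℕ) (γ c : ℝ), γ < 5 ∧ 0 < c ∧ ∀ (V : Type) [Finite V] (G : SimpleGraph V),
      Planar G → G.Colorable 4 → Glued n G →
      (∀ a b : ℕ, b₀ ≤ b → γ * b ≤ a → Choosable G a b) ∧ chsf G ≤ ((5 - c : ℝ) : EReal) := by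
  refine ⟨2 * BDP.Hub.err n + 2, BDP.Hub.ratio n, BDP.gain (2 * BDP.Hub.err n + 2)
    (BDP.Hub.ratio n), BDP.Hub.ratio_lt n, BDP.gain_pos _ (BDP.Hub.ratio_lt n), ?_⟩
  rintro V _ G hG hcol ⟨piece, hp⟩
  have key := BDP.Hub.choosable_ratio (BDP.not_hasK5Minor G hG) (BDP.not_hasK3Minor G hG) hcol
    piece (fun i => (hp i).1) (fun i => (hp i).2.1) (fun i u hu v hv => by
      obtain ⟨p, h⟩ := (hp i).2.2 u hu v hv
      exact BDP.Hub.reachable_res p h)
  exact ⟨key, BDP.chsf_le_gain key (BDP.choosable_five_planar hG)⟩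

end Pool.Agent.Results.MP_0890ba_co.GluedPieces
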